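import Pool.Agent.TH464.PO.BaseFam2

set_option autoImplicit false

/-!
# Almost prime Goldbach representations: patterns with prescribed surroundings

For even `N` let `m` be good if `m` and `N - m` both have fewer than `r` prime factors, all larger
than `N ^ (1 / r)`, let `V` be the sieve density of this condition, and for a finite set `B` let
`V_B` be the sieve density of the condition that all `m + t`, `t ∈ B`, satisfy it. Given `θ > 0`,
a size `β` of patterns, a number `w` of windows, a size `x` and an accuracy `ε`, for all `r ≥ r0`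
and EVERY large even `N`, in ALL intervals `(Z, Z + Y]` with `Y ≥ N ^ θ` and `Z + 2 Y ≤ N`, for
ALL sets `B ⊆ [0, x / V]` of at most `β` elements, ALL disjoint windows `(u_i, v_i] ⊆ [0, x / V]`
without elements of `B` and ALL finite sets `E_i`: the number of the `n` in `(Z, Z + Y]` such that
all `n + h`, `h ∈ B`, are good and the number of the good integers in `(n + u_i, n + v_i]` lies in
`E_i` for every `i` is `Y V_B` times the product of the Poisson probabilities of the `E_i` for the
means `(v_i - u_i) V`, up to `ε Y V_B`.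
-/

namespace Pool.Agent.Results.MP_b454d1_nt.PatternsAndRuns

open Finset Filter

/-- `m < N`, and `m` and `N - m` have fewer than `r` prime factors (with multiplicity), all of them larger
than `N ^ (1 / r)`. -/
def GoodPair (r N m : ℕ) : Prop :=
  m < N ∧ (m.primeFactorsList.length < r ∧
    ∀ p : ℕ, p.Prime → p ∣ m → (N : ℝ) ^ (1 / (r : ℝ)) < (p : ℝ)) ∧
  ((N - m).primeFactorsList.length < r ∧
    ∀ p : ℕ, p.Prime → p ∣ N - m → (N : ℝ) ^ (1 / (r : ℝ)) < (p : ℝ))

open Classical in
/-- The sieve density: the product over the primes `p ≤ N ^ (1 / r)` of `1 - 1 / p` if `p` divides `N`, and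
of `1 - 2 / p` if not. -/
noncomputable def V (r N : ℕ) : ℝ :=
  ∏ p ∈ (Finset.range (⌊(N : ℝ) ^ (1 / (r : ℝ))⌋₊ + 1)).filter Nat.Prime,
    (1 - (if p ∣ N then 1 else 2) / (p : ℝ))

open Classical in
/-- The sieve density of the pattern `B`: the product of `1 - ρ(p) / p` over the primes `p ≤ N ^ (1 / r)`,
where `ρ(p)` is the number of the residues `m` mod `p` such that `m + t` is `0` or `N` mod `p` for some `t`
in `B`. -/
noncomputable def VB (r N : ℕ) (B : Finset ℕ) : ℝ :=
  ∏ p ∈ (Finset.range (⌊(N : ℝ) ^ (1 / (r : ℝ))⌋₊ + 1)).filter Nat.Prime,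
    (1 - ((((Finset.range p).filter
      (fun m => ∃ t ∈ B, p ∣ m + t ∨ m + t ≡ N [MOD p])).card : ℕ) : ℝ) / p)

open Classical in
/-- The number of the good `m` in `(u, v]`. -/
noncomputable def count (r N : ℕ) (u v : ℕ) : ℕ :=
  ((Finset.Ioc u v).filter (fun m => GoodPair r N m)).card

/-- The probability of `E` for the Poisson distribution of mean `x`. -/
noncomputable def Poi (x : ℝ) (E : Finset ℕ) : ℝ :=
  ∑ j ∈ E, Real.exp (-x) * x ^ j / j.factorial

open Pool.Agent.TH464.PO

open Classical in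
/-- **Patterns of good integers with prescribed surroundings**, for every large even `N`. -/
theorem result (θ : ℝ) (hθ : 0 < θ) (β w : ℕ) (x ε : ℝ) (hε : 0 < ε) :
    ∃ r0 : ℕ, ∀ r : ℕ, r0 ≤ r → ∀ᶠ N : ℕ in atTop, 2 ∣ N → ∀ Z Y : ℕ, (N : ℝ) ^ θ ≤ Y →
      Z + 2 * Y ≤ N → ∀ B : Finset ℕ, B.card ≤ β → (∀ h ∈ B, h * V r N ≤ x) →
      ∀ u v : Fin w → ℕ, (∀ i, u i ≤ v i) → (∀ i, v i * V r N ≤ x) →
      (∀ i j, i ≠ j → v i ≤ u j ∨ v j ≤ u i) → (∀ i, ∀ h ∈ B, h ≤ u i ∨ v i < h) →
      ∀ E : Fin w → Finset ℕ,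
        |(((Finset.Ioc Z (Z + Y)).filter (fun n => (∀ h ∈ B, GoodPair r N (n + h)) ∧
            ∀ i, count r N (n + u i) (n + v i) ∈ E i)).card : ℝ) -
          Y * VB r N B * ∏ i, Poi (((v i : ℝ) - u i) * V r N) (E i)| ≤
            ε * (Y * VB r N B) := by
  obtain ⟨r0, h⟩ := gold_base θ hθ β w x ε hε
  refine ⟨r0, fun r hr => ?_⟩
  filter_upwards [h r hr] with N hN h2
  exact hN h2 (GoodPair r N) (V r N) (VB r N) (fun m _ => Iff.rfl) (gold_V N _)
    (fun B => gold_VB N B _)

end Pool.Agent.Results.MP_b454d1_nt.PatternsAndRuns
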